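import Pool.Agent.L5helper63.UP.Defs

/-!
# The expander mixing lemma for unit vectors of a Hermitian plane (part MIX of helper63's plan for
`MP_8d5faa_co`)
-/

set_option autoImplicit false
set_option linter.unusedSectionVars false

namespace Pool.Agent.L5helper67.UPMix

open Finset Pool.Agent.L5helper63.UP

variable {F : Type} [Field F] [Fintype F] [DecidableEq F] [StarRing F]

/-- the functional `w ↦ ∑ v i * w i` -/
noncomputable def L (v : Fin 3 → F) : (Fin 3 → F) →ₗ[F] F := ∑ i, v i • LinearMap.proj i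

lemma L_apply (v w : Fin 3 → F) : L v w = ∑ i, v i * w i := by
  simp [L]

lemma hm_eq_L (v w : Fin 3 → F) : hm v w = L v (fun i => star (w i)) := by
  rw [L_apply]; rfl

lemma ne_zero_of_unit {v : Fin 3 → F} (hv : hm v v = 1) : v ≠ 0 := by
  rintro rfl
  simp [hm] at hv

lemma card_one {q : ℕ} (hS : Setup F q) (v : Fin 3 → F) (hv : hm v v = 1) :
    (univ.filter fun w : Fin 3 → F => hm v w = 0).card = (q ^ 2) ^ 2 := by
  classical
  have hL : L v ≠ 0 := by
    intro h
    have h1 : hm v v = 0 := by rw [hm_eq_L, h]; rfl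
    rw [hv] at h1
    exact one_ne_zero h1
  have h1 := Module.Dual.finrank_ker_add_one_of_ne_zero (f := L v) hL
  have h2 : Module.finrank F (LinearMap.ker (L v)) = 2 := by
    have h3 : Module.finrank F (Fin 3 → F) = 3 := by simp
    omega
  have h3 : Fintype.card (LinearMap.ker (L v)) = (q ^ 2) ^ 2 := by
    rw [Module.card_eq_pow_finrank (K := F), h2, hS.hcard]
  rw [← h3, ← Fintype.card_coe]
  refine Fintype.card_congr ?_
  refine ⟨fun w => ⟨fun i => star (w.1 i), ?_⟩, fun w => ⟨fun i => star (w.1 i), ?_⟩, ?_, ?_⟩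
  · have := w.2
    rw [mem_filter] at this
    rw [LinearMap.mem_ker, ← hm_eq_L]
    exact this.2
  · rw [mem_filter]
    refine ⟨mem_univ _, ?_⟩
    rw [hm_eq_L]
    simp only [star_star]
    exact LinearMap.mem_ker.1 w.2
  · intro w
    apply Subtype.ext
    funext i
    simp
  · intro w
    apply Subtype.ext
    funext i
    simp

lemma cramer {a b c d x y x' y' : F} (h : a * d ≠ b * c) (h1 : a * x + b * y = a * x' + b * y')
    (h2 : c * x + d * y = c * x' + d * y') : x = x' ∧ y = y' := by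
  have hd : a * d - b * c ≠ 0 := sub_ne_zero.2 h
  constructor
  · have : (a * d - b * c) * (x - x') = 0 := by linear_combination d * h1 - b * h2
    rcases mul_eq_zero.1 this with h3 | h3
    · exact absurd h3 hd
    · exact sub_eq_zero.1 h3
  · have : (a * d - b * c) * (y - y') = 0 := by linear_combination a * h2 - c * h1
    rcases mul_eq_zero.1 this with h3 | h3
    · exact absurd h3 hd
    · exact sub_eq_zero.1 h3

lemma card_two {q : ℕ} (hS : Setup F q) (v v' : Fin 3 → F) (hv : v ≠ 0)
    (hn : ∀ l : F, v' ≠ l • v) :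
    (univ.filter fun w : Fin 3 → F => hm v w = 0 ∧ hm v' w = 0).card ≤ q ^ 2 := by
  classical
  have hex : v 0 * v' 1 ≠ v 1 * v' 0 ∨ v 0 * v' 2 ≠ v 2 * v' 0 ∨ v 1 * v' 2 ≠ v 2 * v' 1 := by
    by_contra hcon
    push Not at hcon
    obtain ⟨h01, h02, h12⟩ := hcon
    obtain ⟨i, hi⟩ : ∃ i, v i ≠ 0 := by
      by_contra hc
      push Not at hc
      exact hv (funext hc)
    refine hn (v' i / v i) ?_
    funext j
    rw [Pi.smul_apply, smul_eq_mul, div_mul_eq_mul_div, eq_div_iff hi]
    fin_cases i <;> fin_cases j <;> simp at * <;>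
      first
        | rfl
        | linear_combination h01
        | linear_combination h02
        | linear_combination h12
        | linear_combination -h01
        | linear_combination -h02
        | linear_combination -h12
  have key : ∃ k : Fin 3, Set.InjOn (fun w : Fin 3 → F => w k)
      (univ.filter fun w : Fin 3 → F => hm v w = 0 ∧ hm v' w = 0 : Finset (Fin 3 → F)) := by
    rcases hex with h | h | h
    · refine ⟨2, ?_⟩
      intro w hw w' hw' heq
      simp only [coe_filter, mem_univ, true_and, Set.mem_ofPred_eq, hm, Fin.sum_univ_three] at hw hw'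
      simp only at heq
      have hc := cramer (x := star (w 0)) (y := star (w 1)) (x' := star (w' 0)) (y' := star (w' 1)) h
        (by rw [heq] at hw; linear_combination hw.1 - hw'.1)
        (by rw [heq] at hw; linear_combination hw.2 - hw'.2)
      funext i
      fin_cases i
      · exact star_injective hc.1
      · exact star_injective hc.2
      · exact heq
    · refine ⟨1, ?_⟩
      intro w hw w' hw' heq
      simp only [coe_filter, mem_univ, true_and, Set.mem_ofPred_eq, hm, Fin.sum_univ_three] at hw hw'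
      simp only at heq
      have hc := cramer (x := star (w 0)) (y := star (w 2)) (x' := star (w' 0)) (y' := star (w' 2)) h
        (by rw [heq] at hw; linear_combination hw.1 - hw'.1)
        (by rw [heq] at hw; linear_combination hw.2 - hw'.2)
      funext i
      fin_cases i
      · exact star_injective hc.1
      · exact heq
      · exact star_injective hc.2
    · refine ⟨0, ?_⟩
      intro w hw w' hw' heq
      simp only [coe_filter, mem_univ, true_and, Set.mem_ofPred_eq, hm, Fin.sum_univ_three] at hw hw'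
      simp only at heq
      have hc := cramer (x := star (w 1)) (y := star (w 2)) (x' := star (w' 1)) (y' := star (w' 2)) h
        (by rw [heq] at hw; linear_combination hw.1 - hw'.1)
        (by rw [heq] at hw; linear_combination hw.2 - hw'.2)
      funext i
      fin_cases i
      · exact heq
      · exact star_injective hc.1
      · exact star_injective hc.2
  obtain ⟨k, hk⟩ := key
  have := Finset.card_le_card_of_injOn (fun w : Fin 3 → F => w k)
    (t := (univ : Finset F)) (fun _ _ => mem_coe.2 (mem_univ _)) hk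
  rwa [card_univ, hS.hcard] at this

/-- at most `q + 1` scalars of norm one -/
lemma card_norm_one {q : ℕ} (hS : Setup F q) :
    (univ.filter fun l : F => l * star l = 1).card ≤ q + 1 := by
  classical
  have h : (univ.filter fun l : F => l * star l = 1) ⊆ (Polynomial.nthRoots (q + 1) (1 : F)).toFinset := by
    intro l hl
    rw [mem_filter] at hl
    rw [Multiset.mem_toFinset, Polynomial.mem_nthRoots (by omega)]
    rw [pow_succ', ← hS.hstar]
    exact hl.2
  exact (card_le_card h).trans ((Multiset.toFinset_card_le _).trans (Polynomial.card_nthRoots _ _))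

lemma hm_smul (l : F) (v : Fin 3 → F) : hm (l • v) (l • v) = (l * star l) * hm v v := by
  simp only [hm, Pi.smul_apply, smul_eq_mul, star_mul, mul_sum]
  refine sum_congr rfl fun i _ => ?_
  ring

/-- the degree of `w` into `A` -/
def D (A : Finset (Fin 3 → F)) (w : Fin 3 → F) : ℕ := (A.filter fun v => hm v w = 0).card

lemma sum_D {q : ℕ} (hS : Setup F q) (A : Finset (Fin 3 → F)) (hA : ∀ v ∈ A, hm v v = 1) :
    ∑ w, D A w = A.card * (q ^ 2) ^ 2 := by
  classical
  simp only [D, card_filter]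
  rw [sum_comm]
  have : ∀ v ∈ A, (∑ w : Fin 3 → F, if hm v w = 0 then 1 else 0) = (q ^ 2) ^ 2 := by
    intro v hv
    rw [← card_filter]
    exact card_one hS v (hA v hv)
  rw [sum_congr rfl this, sum_const, smul_eq_mul]

lemma sum_D_sq {q : ℕ} (hS : Setup F q) (A : Finset (Fin 3 → F)) (hA : ∀ v ∈ A, hm v v = 1) :
    ∑ w, D A w ^ 2 ≤ A.card ^ 2 * q ^ 2 + (q + 1) * A.card * (q ^ 2) ^ 2 := by
  classical
  have h1 : ∀ w : Fin 3 → F, D A w ^ 2 =
      ∑ v ∈ A, ∑ v' ∈ A, if hm v w = 0 ∧ hm v' w = 0 then 1 else 0 := by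
    intro w
    simp only [D, card_filter, sq, sum_mul_sum]
    refine sum_congr rfl fun v _ => sum_congr rfl fun v' _ => ?_
    by_cases ha : hm v w = 0 <;> by_cases hb : hm v' w = 0 <;> simp [ha, hb]
  simp only [h1]
  rw [sum_comm]
  have h2 : ∀ v ∈ A, (∑ w : Fin 3 → F, ∑ v' ∈ A, if hm v w = 0 ∧ hm v' w = 0 then 1 else 0) ≤
      A.card * q ^ 2 + (q + 1) * (q ^ 2) ^ 2 := by
    intro v hv
    rw [sum_comm]
    have h3 : ∀ v' ∈ A, (∑ w : Fin 3 → F, if hm v w = 0 ∧ hm v' w = 0 then 1 else 0) ≤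
        q ^ 2 + (if (∃ l : F, v' = l • v) then (q ^ 2) ^ 2 else 0) := by
      intro v' hv'
      rw [← card_filter]
      by_cases hl : ∃ l : F, v' = l • v
      · rw [if_pos hl]
        have := card_one hS v (hA v hv)
        refine le_trans (card_le_card ?_) (this.le.trans (Nat.le_add_left _ _))
        intro w hw
        rw [mem_filter] at hw ⊢
        exact ⟨hw.1, hw.2.1⟩
      · rw [if_neg hl, add_zero]
        push Not at hl
        exact card_two hS v v' (ne_zero_of_unit (hA v hv)) hl
    refine (sum_le_sum h3).trans ?_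
    rw [sum_add_distrib, sum_const, smul_eq_mul, ← sum_filter, sum_const, smul_eq_mul]
    refine Nat.add_le_add_left (Nat.mul_le_mul_right _ ?_) _
    refine le_trans ?_ (card_norm_one hS)
    -- injection from the scalars
    have h4 : (A.filter fun v' => ∃ l : F, v' = l • v) ⊆
        (univ.filter fun l : F => l * star l = 1).image fun l => l • v := by
      intro v' hv'
      rw [mem_filter] at hv'
      obtain ⟨hA', l, hl⟩ := hv'
      rw [mem_image]
      refine ⟨l, ?_, hl.symm⟩
      rw [mem_filter]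
      refine ⟨mem_univ _, ?_⟩
      have h5 := hA v' hA'
      rw [hl, hm_smul, hA v hv, mul_one] at h5
      exact h5
    exact (card_le_card h4).trans card_image_le
  refine (sum_le_sum h2).trans ?_
  rw [sum_const, smul_eq_mul]
  exact le_of_eq (by ring)

lemma ep_eq (A : Finset (Fin 3 → F)) : ep A = ∑ w ∈ A, D A w := by
  classical
  simp only [ep, D, card_filter, sum_product]
  rw [sum_comm]

theorem mix {q : ℕ} (hS : Setup F q) (A : Finset (Fin 3 → F)) (hA : ∀ v ∈ A, hm v v = 1) :
    |(ep A : ℝ) - (A.card : ℝ) ^ 2 / (q : ℝ) ^ 2| ≤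
      (A.card : ℝ) * ((q : ℝ) ^ 2 * Real.sqrt (q + 1)) := by
  classical
  have hq : (0 : ℝ) < q := by have := hS.hq; exact_mod_cast (by omega : 0 < q)
  have hQ : (0 : ℝ) < (q : ℝ) ^ 2 := by positivity
  set a : ℝ := (A.card : ℝ) with ha
  have ha0 : 0 ≤ a := by positivity
  set m : ℝ := a / (q : ℝ) ^ 2 with hm'
  -- the second moment
  have hsum : ∑ w : Fin 3 → F, (D A w : ℝ) = a * ((q : ℝ) ^ 2) ^ 2 := by
    have := sum_D hS A hA
    rw [ha]
    exact_mod_cast this
  have hsq : ∑ w : Fin 3 → F, (D A w : ℝ) ^ 2 ≤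
      a ^ 2 * (q : ℝ) ^ 2 + (q + 1) * a * ((q : ℝ) ^ 2) ^ 2 := by
    have := sum_D_sq hS A hA
    rw [ha]
    exact_mod_cast this
  have hcard : (Fintype.card (Fin 3 → F) : ℝ) = ((q : ℝ) ^ 2) ^ 3 := by
    rw [Fintype.card_fun, hS.hcard, Fintype.card_fin]
    push_cast
    ring
  have hvar : ∑ w : Fin 3 → F, ((D A w : ℝ) - m) ^ 2 ≤ (q + 1) * a * ((q : ℝ) ^ 2) ^ 2 := by
    have h1 : ∑ w : Fin 3 → F, ((D A w : ℝ) - m) ^ 2 =
        ∑ w : Fin 3 → F, (D A w : ℝ) ^ 2 - 2 * m * ∑ w : Fin 3 → F, (D A w : ℝ) +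
          (Fintype.card (Fin 3 → F) : ℝ) * m ^ 2 := by
      have h2 : ∀ w : Fin 3 → F, ((D A w : ℝ) - m) ^ 2 =
          ((D A w : ℝ) ^ 2 - 2 * m * (D A w : ℝ)) + m ^ 2 := fun w => by ring
      rw [sum_congr rfl fun w _ => h2 w, sum_add_distrib, sum_sub_distrib, ← mul_sum, sum_const,
        nsmul_eq_mul, card_univ]
    rw [h1, hsum, hcard]
    have h3 : a = m * (q : ℝ) ^ 2 := by rw [hm']; field_simp
    have h4 : 2 * m * (a * ((q : ℝ) ^ 2) ^ 2) = 2 * (a ^ 2 * (q : ℝ) ^ 2) := by
      rw [h3]; ring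
    have h5 : ((q : ℝ) ^ 2) ^ 3 * m ^ 2 = a ^ 2 * (q : ℝ) ^ 2 := by
      rw [h3]; ring
    rw [h4, h5]
    linarith
  have h1 : (ep A : ℝ) - a ^ 2 / (q : ℝ) ^ 2 = ∑ w ∈ A, ((D A w : ℝ) - m) := by
    rw [ep_eq, sum_sub_distrib, sum_const, nsmul_eq_mul]
    push_cast
    rw [hm', ← ha]
    ring
  have h2 : (∑ w ∈ A, ((D A w : ℝ) - m)) ^ 2 ≤
      a * ∑ w ∈ A, ((D A w : ℝ) - m) ^ 2 := by
    have := sq_sum_le_card_mul_sum_sq (s := A) (f := fun w => (D A w : ℝ) - m)
    exact this
  have h3 : ∑ w ∈ A, ((D A w : ℝ) - m) ^ 2 ≤ ∑ w : Fin 3 → F, ((D A w : ℝ) - m) ^ 2 :=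
    sum_le_sum_of_subset_of_nonneg (subset_univ _) fun _ _ _ => sq_nonneg _
  rw [h1]
  refine abs_le_of_sq_le_sq ?_ (by positivity)
  refine h2.trans ?_
  calc a * ∑ w ∈ A, ((D A w : ℝ) - m) ^ 2
      ≤ a * ((q + 1) * a * ((q : ℝ) ^ 2) ^ 2) :=
        mul_le_mul_of_nonneg_left (h3.trans hvar) ha0
    _ = (a * ((q : ℝ) ^ 2 * Real.sqrt (q + 1))) ^ 2 := by
        have : Real.sqrt ((q : ℝ) + 1) ^ 2 = q + 1 := Real.sq_sqrt (by positivity)
        rw [mul_pow, mul_pow, this]
        ring

/-- part MIX -/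
theorem part_mix : St_MIX := by
  intro F _ _ _ _ q hS A hA
  exact mix hS A hA

end Pool.Agent.L5helper67.UPMix
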