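import Pool.Agent.L5helper63.UP.Defs

/-!
# Unit vectors on the points of a set of points (part PTS of helper63's plan for `MP_8d5faa_co`)
-/

set_option autoImplicit false
set_option linter.unusedSectionVars false

namespace Pool.Agent.L5helper67.UPPts

open Finset Pool.Agent.L5helper63.UP

variable {F : Type} [Field F] [Fintype F] [DecidableEq F] [StarRing F]

lemma hm_smul_smul (a b : F) (v w : Fin 3 → F) : hm (a • v) (b • w) = (a * star b) * hm v w := by
  simp only [hm, Pi.smul_apply, smul_eq_mul, star_mul, mul_sum]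
  refine sum_congr rfl fun i _ => ?_
  ring

lemma hm_star (v w : Fin 3 → F) : star (hm v w) = hm w v := by
  simp only [hm, star_sum, star_mul, star_star]

lemma hm_zero_left (w : Fin 3 → F) : hm (0 : Fin 3 → F) w = 0 := by
  simp [hm]

/-- the unit vectors on a nonisotropic point -/
lemma card_fiber (h1 : St_NORM1) {q : ℕ} (hS : Setup F q)
    [DecidableEq (Projectivization F (Fin 3 → F))] (x : Projectivization F (Fin 3 → F))
    (hx : hm x.rep x.rep ≠ 0) :
    q + 1 ≤ (univ.filter fun v : Fin 3 → F =>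
      hm v v = 1 ∧ ∃ h : v ≠ 0, Projectivization.mk F v h = x).card := by
  classical
  have ht0 : (hm x.rep x.rep)⁻¹ ≠ 0 := inv_ne_zero hx
  have hts : star ((hm x.rep x.rep)⁻¹) = (hm x.rep x.rep)⁻¹ := by
    rw [star_inv₀, hm_star]
  have hc := (h1 F q hS).2 _ ht0 hts
  rw [← hc]
  refine card_le_card_of_injOn (fun l : F => l • x.rep) ?_ ?_
  · intro l hl
    simp only [coe_filter, mem_univ, true_and, Set.mem_ofPred_eq] at hl ⊢
    have hu : hm (l • x.rep) (l • x.rep) = 1 := by
      rw [hm_smul_smul, hl]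
      exact inv_mul_cancel₀ hx
    have hn : l • x.rep ≠ 0 := by
      intro h0
      rw [h0, hm_zero_left] at hu
      exact zero_ne_one hu
    refine ⟨hu, hn, ?_⟩
    have hl0 : l ≠ 0 := by
      rintro rfl
      exact hn (zero_smul _ _)
    conv_rhs => rw [← Projectivization.mk_rep x]
    rw [Projectivization.mk_eq_mk_iff']
    exact ⟨l, rfl⟩
  · intro l _ l' _ h
    simp only at h
    exact smul_left_injective F x.rep_nonzero h

/-- the nonzero vectors on a point -/
lemma card_fiber0 {q : ℕ} (hS : Setup F q)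
    [DecidableEq (Projectivization F (Fin 3 → F))] (x : Projectivization F (Fin 3 → F))
    (hx : hm x.rep x.rep = 0) :
    q ^ 2 - 1 ≤ (univ.filter fun v : Fin 3 → F =>
      hm v v = 0 ∧ ∃ h : v ≠ 0, Projectivization.mk F v h = x).card := by
  classical
  have hc : (univ.filter fun l : F => l ≠ 0).card = q ^ 2 - 1 := by
    rw [filter_ne' univ (0 : F), card_erase_of_mem (mem_univ _), card_univ, hS.hcard]
  rw [← hc]
  refine card_le_card_of_injOn (fun l : F => l • x.rep) ?_ ?_
  · intro l hl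
    simp only [coe_filter, mem_univ, true_and, Set.mem_ofPred_eq] at hl ⊢
    have hu : hm (l • x.rep) (l • x.rep) = 0 := by
      rw [hm_smul_smul, hx, mul_zero]
    have hn : l • x.rep ≠ 0 := smul_ne_zero hl x.rep_nonzero
    refine ⟨hu, hn, ?_⟩
    conv_rhs => rw [← Projectivization.mk_rep x]
    rw [Projectivization.mk_eq_mk_iff']
    exact ⟨l, rfl⟩
  · intro l _ l' _ h
    simp only at h
    exact smul_left_injective F x.rep_nonzero h

theorem count (h1 : St_NORM1) (h2 : St_NORM2) {q : ℕ} (hS : Setup F q)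
    [DecidableEq (Projectivization F (Fin 3 → F))] (S : Finset (Projectivization F (Fin 3 → F))) :
    ((q : ℝ) + 1) * ((S.card : ℝ) - (q : ℝ) ^ 4 * (q + 1) / ((q : ℝ) ^ 2 - 1)) ≤
      ((vecs S).card : ℝ) := by
  classical
  set Sn := S.filter fun x => hm x.rep x.rep ≠ 0 with hSn
  set Si := S.filter fun x => ¬ hm x.rep x.rep ≠ 0 with hSi
  have hsplit : Sn.card + Si.card = S.card := card_filter_add_card_filter_not _
  -- the nonisotropic points
  have hn : (q + 1) * Sn.card ≤ (vecs S).card := by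
    have hsub : Sn.biUnion (fun x => univ.filter fun v : Fin 3 → F =>
        hm v v = 1 ∧ ∃ h : v ≠ 0, Projectivization.mk F v h = x) ⊆ vecs S := by
      intro v hv
      rw [mem_biUnion] at hv
      obtain ⟨x, hx, hv⟩ := hv
      rw [mem_filter] at hv hx
      rw [vecs, mem_filter]
      exact ⟨mem_univ _, hv.2.1, x, hx.1, hv.2.2⟩
    refine le_trans ?_ (card_le_card hsub)
    rw [card_biUnion]
    · calc (q + 1) * Sn.card = ∑ _x ∈ Sn, (q + 1) := by rw [sum_const, smul_eq_mul, mul_comm]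
        _ ≤ _ := sum_le_sum fun x hx => card_fiber h1 hS x (mem_filter.1 hx).2
    · intro x _ y _ hxy
      rw [Function.onFun_apply, disjoint_left]
      intro v hv hv'
      rw [mem_filter] at hv hv'
      obtain ⟨_, _, _, h3⟩ := hv
      obtain ⟨_, _, _, h4⟩ := hv'
      exact hxy (h3.symm.trans h4)
  -- the isotropic points
  have hi : (q ^ 2 - 1) * Si.card ≤ q ^ 4 * (q + 1) := by
    have hsub : Si.biUnion (fun x => univ.filter fun v : Fin 3 → F =>
        hm v v = 0 ∧ ∃ h : v ≠ 0, Projectivization.mk F v h = x) ⊆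
        univ.filter fun v : Fin 3 → F => hm v v = 0 := by
      intro v hv
      rw [mem_biUnion] at hv
      obtain ⟨x, hx, hv⟩ := hv
      rw [mem_filter] at hv ⊢
      exact ⟨mem_univ _, hv.2.1⟩
    refine le_trans ?_ ((card_le_card hsub).trans (h2 F q hS 0))
    rw [card_biUnion]
    · calc (q ^ 2 - 1) * Si.card = ∑ _x ∈ Si, (q ^ 2 - 1) := by
            rw [sum_const, smul_eq_mul, mul_comm]
        _ ≤ _ := sum_le_sum fun x hx => card_fiber0 hS x (not_not.1 (mem_filter.1 hx).2)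
    · intro x _ y _ hxy
      rw [Function.onFun_apply, disjoint_left]
      intro v hv hv'
      rw [mem_filter] at hv hv'
      obtain ⟨_, _, _, h3⟩ := hv
      obtain ⟨_, _, _, h4⟩ := hv'
      exact hxy (h3.symm.trans h4)
  have hq : (2 : ℝ) ≤ q := by exact_mod_cast hS.hq
  have hpos : (0 : ℝ) < (q : ℝ) ^ 2 - 1 := by nlinarith
  have hi' : (Si.card : ℝ) ≤ (q : ℝ) ^ 4 * (q + 1) / ((q : ℝ) ^ 2 - 1) := by
    rw [le_div_iff₀ hpos]
    have h3 : 1 ≤ q ^ 2 := Nat.one_le_pow _ _ (by have := hS.hq; omega)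
    have h4 : (((q ^ 2 - 1 : ℕ) : ℝ)) = (q : ℝ) ^ 2 - 1 := by
      rw [Nat.cast_sub h3]
      push_cast
      ring
    have h5 : (((q ^ 2 - 1) * Si.card : ℕ) : ℝ) ≤ ((q ^ 4 * (q + 1) : ℕ) : ℝ) := by
      exact_mod_cast hi
    rw [Nat.cast_mul, h4] at h5
    push_cast at h5
    linarith
  have hn' : ((q : ℝ) + 1) * Sn.card ≤ ((vecs S).card : ℝ) := by exact_mod_cast hn
  have hs' : (Sn.card : ℝ) + Si.card = S.card := by exact_mod_cast hsplit
  refine le_trans ?_ hn'
  refine mul_le_mul_of_nonneg_left ?_ (by positivity)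
  linarith

/-- orthogonal unit vectors are on different points -/
lemma mk_ne {u v : Fin 3 → F} (hu : hm u u = 1) (huv : hm u v = 0)
    (hu0 : u ≠ 0) (hv0 : v ≠ 0) : Projectivization.mk F u hu0 ≠ Projectivization.mk F v hv0 := by
  intro h
  rw [Projectivization.mk_eq_mk_iff'] at h
  obtain ⟨a, ha⟩ := h
  -- a • v = u
  have h1 : hm u u = star a * hm u v := by
    have := hm_smul_smul 1 a u v
    rw [one_smul, ha, one_mul] at this
    exact this
  rw [hu, huv, mul_zero] at h1
  exact one_ne_zero h1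

lemma sum_rep {q : ℕ} (hS : Setup F q) {u v : Fin 3 → F} (hu0 : u ≠ 0) (hv0 : v ≠ 0)
    (huv : hm u v = 0) :
    (∑ i : Fin 3, (Projectivization.mk F u hu0).rep i * ((Projectivization.mk F v hv0).rep i) ^ q)
      = 0 := by
  obtain ⟨a, ha⟩ := Projectivization.exists_smul_eq_mk_rep F u hu0
  obtain ⟨b, hb⟩ := Projectivization.exists_smul_eq_mk_rep F v hv0
  have h : hm ((Projectivization.mk F u hu0).rep) ((Projectivization.mk F v hv0).rep) = 0 := by
    rw [← ha, ← hb]
    have := hm_smul_smul (a : F) (b : F) u v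
    rw [huv, mul_zero] at this
    exact this
  rw [← h]
  simp only [hm, hS.hstar]

theorem triangle {q : ℕ} (hS : Setup F q) [DecidableEq (Projectivization F (Fin 3 → F))]
    (S : Finset (Projectivization F (Fin 3 → F)))
    (hT : ∀ x ∈ S, ∀ y ∈ S, ∀ z ∈ S, x ≠ y → y ≠ z → x ≠ z →
          ¬ ((∑ i : Fin 3, x.rep i * (y.rep i) ^ q) = 0 ∧
             (∑ i : Fin 3, y.rep i * (z.rep i) ^ q) = 0 ∧
             (∑ i : Fin 3, x.rep i * (z.rep i) ^ q) = 0)) :
    ∀ u ∈ vecs S, ∀ v ∈ vecs S, ∀ w ∈ vecs S, hm u v = 0 → hm v w = 0 → hm u w = 0 → False := by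
  intro u hu v hv w hw huv hvw huw
  rw [vecs, mem_filter] at hu hv hw
  obtain ⟨_, hu1, x, hx, hu0, rfl⟩ := hu
  obtain ⟨_, hv1, y, hy, hv0, rfl⟩ := hv
  obtain ⟨_, hw1, z, hz, hw0, rfl⟩ := hw
  exact hT _ hx _ hy _ hz (mk_ne hu1 huv hu0 hv0) (mk_ne hv1 hvw hv0 hw0) (mk_ne hu1 huw hu0 hw0)
    ⟨sum_rep hS hu0 hv0 huv, sum_rep hS hv0 hw0 hvw, sum_rep hS hu0 hw0 huw⟩

/-- part PTS -/
theorem pts (h1 : St_NORM1) (h2 : St_NORM2) : St_PTS := by
  intro F _ _ _ _ q _ hS S
  exact ⟨count h1 h2 hS S, triangle hS S⟩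

end Pool.Agent.L5helper67.UPPts
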